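import Pool.Agent.Lib.Helper9.KSumsDefs

/-!
# The case `k = 2`, `n = 7`
-/

set_option autoImplicit false

namespace Pool.Agent.Results.MP_b5758b_co.FailsAtSeven

open Finset Pool.Agent.Lib.Helper9.KSums

section pairs

variable {ι : Type} [DecidableEq ι]

/-- Nonnegative pairs inside `U`. -/
noncomputable def pairs (x : ι → ℝ) (U : Finset ι) : Finset (Finset ι) :=
  {S ∈ powersetCard 2 U | 0 ≤ ∑ i ∈ S, x i}

/-- Points of `U` lying in a nonnegative pair. -/
noncomputable def cov (x : ι → ℝ) (U : Finset ι) : Finset ι :=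
  {u ∈ U | ∃ v ∈ U, v ≠ u ∧ 0 ≤ x u + x v}

lemma pairs_subset_cov (x : ι → ℝ) (U : Finset ι) : pairs x U ⊆ powersetCard 2 (cov x U) := by
  intro S hS
  rw [pairs, mem_filter, mem_powersetCard] at hS
  obtain ⟨⟨hSU, hc⟩, hs⟩ := hS
  rw [card_eq_two] at hc
  obtain ⟨u, v, huv, rfl⟩ := hc
  rw [sum_pair huv] at hs
  rw [mem_powersetCard]
  refine ⟨?_, card_pair huv⟩
  intro w hw
  rw [mem_insert, mem_singleton] at hw
  rw [cov, mem_filter]
  rcases hw with rfl | rfl
  · exact ⟨hSU (by simp), v, hSU (by simp), huv.symm, hs⟩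
  · exact ⟨hSU (by simp), u, hSU (by simp), huv, by linarith⟩

/-- Removing the largest and the smallest entry. -/
lemma pairs_step (x : ι → ℝ) (U : Finset ι) (a b : ι) (ha : a ∈ U)
    (hmax : ∀ u ∈ U, x u ≤ x a) :
    #(pairs x ((U.erase a).erase b)) + #(cov x ((U.erase a).erase b)) ≤ #(pairs x U) := by
  set U' := (U.erase a).erase b with hU'
  have haU' : a ∉ U' := by simp [hU']
  have hU'U : U' ⊆ U := (erase_subset _ _).trans (erase_subset _ _)
  have hinj : Set.InjOn (fun u => ({a, u} : Finset ι)) (cov x U') := by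
    intro u hu v hv h
    rw [mem_coe, cov, mem_filter] at hu hv
    have h1 : u ≠ a := fun h => haU' (h ▸ hu.1)
    have h' : ({a, u} : Finset ι) = {a, v} := h
    have h2 : u ∈ ({a, v} : Finset ι) := by
      rw [← h']
      simp
    rw [mem_insert, mem_singleton] at h2
    rcases h2 with h2 | h2
    · exact absurd h2 h1
    · exact h2
  have hdisj : Disjoint (pairs x U') ((cov x U').image (fun u => ({a, u} : Finset ι))) := by
    rw [Finset.disjoint_left]
    intro S hS hS'
    rw [mem_image] at hS'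
    obtain ⟨u, -, rfl⟩ := hS'
    rw [pairs, mem_filter, mem_powersetCard] at hS
    exact haU' (hS.1.1 (by simp))
  rw [← card_image_of_injOn hinj, ← card_union_of_disjoint hdisj]
  apply card_le_card
  intro S hS
  rw [mem_union] at hS
  rcases hS with hS | hS
  · rw [pairs, mem_filter, mem_powersetCard] at hS ⊢
    exact ⟨⟨hS.1.1.trans hU'U, hS.1.2⟩, hS.2⟩
  · rw [mem_image] at hS
    obtain ⟨u, hu, rfl⟩ := hS
    rw [cov, mem_filter] at hu
    obtain ⟨huU, v, hvU, hvu, hs⟩ := hu
    have hau : a ≠ u := fun h => haU' (h ▸ huU)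
    rw [pairs, mem_filter, mem_powersetCard, sum_pair hau, card_pair hau]
    refine ⟨⟨?_, rfl⟩, ?_⟩
    · intro w hw
      rw [mem_insert, mem_singleton] at hw
      rcases hw with rfl | rfl
      · exact ha
      · exact hU'U huU
    · have := hmax v (hU'U hvU)
      linarith

/-- If the largest plus the smallest entry is nonnegative there are `|U| - 1` nonnegative pairs. -/
lemma pairs_star (x : ι → ℝ) (U : Finset ι) (a b : ι) (ha : a ∈ U)
    (hmin : ∀ u ∈ U.erase a, x b ≤ x u) (hab : 0 ≤ x a + x b) : #U - 1 ≤ #(pairs x U) := by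
  have hinj : Set.InjOn (fun u => ({a, u} : Finset ι)) (U.erase a) := by
    intro u hu v hv h
    rw [mem_coe, mem_erase] at hu hv
    have h' : ({a, u} : Finset ι) = {a, v} := h
    have h2 : u ∈ ({a, v} : Finset ι) := by
      rw [← h']
      simp
    rw [mem_insert, mem_singleton] at h2
    rcases h2 with h2 | h2
    · exact absurd h2 hu.1
    · exact h2
  rw [← card_erase_of_mem ha, ← card_image_of_injOn hinj]
  apply card_le_card
  intro S hS
  rw [mem_image] at hS
  obtain ⟨u, hu, rfl⟩ := hS
  have hu' := mem_erase.mp hu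
  rw [pairs, mem_filter, mem_powersetCard, sum_pair hu'.1.symm, card_pair hu'.1.symm]
  refine ⟨⟨?_, rfl⟩, by linarith [hmin u hu]⟩
  intro w hw
  rw [mem_insert, mem_singleton] at hw
  rcases hw with rfl | rfl
  · exact ha
  · exact hu'.2

/-- The recursion. -/
lemma pairs_rec (x : ι → ℝ) (U : Finset ι) (hU : 2 ≤ #U) (hsum : 0 ≤ ∑ i ∈ U, x i) :
    #U - 1 ≤ #(pairs x U) ∨ ∃ U' : Finset ι, #U' + 2 = #U ∧ 0 ≤ ∑ i ∈ U', x i ∧
      #(pairs x U') + #(cov x U') ≤ #(pairs x U) := by
  obtain ⟨a, ha, hmax⟩ := exists_max_image U x (card_pos.mp (by omega))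
  have hc : #(U.erase a) = #U - 1 := card_erase_of_mem ha
  obtain ⟨b, hb, hmin⟩ := exists_min_image (U.erase a) x (card_pos.mp (by omega))
  by_cases hab : 0 ≤ x a + x b
  · left
    exact pairs_star x U a b ha hmin hab
  · right
    push Not at hab
    refine ⟨(U.erase a).erase b, ?_, ?_, pairs_step x U a b ha hmax⟩
    · rw [card_erase_of_mem hb, hc]; omega
    · have h1 := add_sum_erase U x ha
      have h2 := add_sum_erase (U.erase a) x hb
      linarith

lemma cov_ge_two (x : ι → ℝ) (U : Finset ι) (h : 1 ≤ #(pairs x U)) : 2 ≤ #(cov x U) := by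
  have h1 := card_le_card (pairs_subset_cov x U)
  rw [card_powersetCard] at h1
  by_contra hcon
  push Not at hcon
  interval_cases hh : #(cov x U) <;> simp_all [Nat.choose]

lemma cov_ge_three (x : ι → ℝ) (U : Finset ι) (h : 2 ≤ #(pairs x U)) : 3 ≤ #(cov x U) := by
  have h1 := card_le_card (pairs_subset_cov x U)
  rw [card_powersetCard] at h1
  by_contra hcon
  push Not at hcon
  interval_cases hh : #(cov x U) <;> simp_all [Nat.choose]
  omega

lemma pairs_even (x : ι → ℝ) (m : ℕ) : ∀ U : Finset ι, #U = 2 * m + 2 → 0 ≤ ∑ i ∈ U, x i →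
    2 * m + 1 ≤ #(pairs x U) := by
  induction m with
  | zero =>
    intro U hU hsum
    have : U ∈ pairs x U := by
      rw [pairs, mem_filter, mem_powersetCard]
      exact ⟨⟨subset_rfl, hU⟩, hsum⟩
    have := card_pos.mpr ⟨U, this⟩
    omega
  | succ m ih =>
    intro U hU hsum
    rcases pairs_rec x U (by omega) hsum with h | ⟨U', hU', hs', hle⟩
    · omega
    · have h1 := ih U' (by omega) hs'
      have h2 := cov_ge_two x U' (by omega)
      omega

lemma pairs_three (x : ι → ℝ) (U : Finset ι) (hU : #U = 3) (hsum : 0 ≤ ∑ i ∈ U, x i) :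
    1 ≤ #(pairs x U) := by
  rcases pairs_rec x U (by omega) hsum with h | ⟨U', hU', hs', hle⟩
  · omega
  · -- the middle entry is nonnegative, hence so is the largest
    by_contra hcon
    push Not at hcon
    have h0 : #(pairs x U) = 0 := by omega
    -- every pair is negative, sum of the three pair sums is negative
    rw [card_eq_three] at hU
    obtain ⟨u, v, w, huv, huw, hvw, rfl⟩ := hU
    rw [card_eq_zero] at h0
    have hneg : ∀ s t, s ∈ ({u, v, w} : Finset ι) → t ∈ ({u, v, w} : Finset ι) → s ≠ t →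
        x s + x t < 0 := by
      intro s t hs ht hst
      by_contra hge
      push Not at hge
      have : ({s, t} : Finset ι) ∈ pairs x {u, v, w} := by
        rw [pairs, mem_filter, mem_powersetCard, sum_pair hst, card_pair hst]
        refine ⟨⟨?_, rfl⟩, hge⟩
        intro z hz
        rw [mem_insert, mem_singleton] at hz
        rcases hz with rfl | rfl
        · exact hs
        · exact ht
      rw [h0] at this
      simp at this
    have h1 := hneg u v (by simp) (by simp) huv
    have h2 := hneg u w (by simp) (by simp) huw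
    have h3 := hneg v w (by simp) (by simp) hvw
    rw [sum_insert (by simp [huv, huw]), sum_pair hvw] at hsum
    linarith

lemma pairs_five (x : ι → ℝ) (U : Finset ι) (hU : #U = 5) (hsum : 0 ≤ ∑ i ∈ U, x i) :
    3 ≤ #(pairs x U) := by
  rcases pairs_rec x U (by omega) hsum with h | ⟨U', hU', hs', hle⟩
  · omega
  · have h1 := pairs_three x U' (by omega) hs'
    have h2 := cov_ge_two x U' h1
    omega

lemma pairs_odd (x : ι → ℝ) (m : ℕ) : ∀ U : Finset ι, #U = 2 * m + 7 → 0 ≤ ∑ i ∈ U, x i →
    2 * m + 6 ≤ #(pairs x U) := by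
  induction m with
  | zero =>
    intro U hU hsum
    rcases pairs_rec x U (by omega) hsum with h | ⟨U', hU', hs', hle⟩
    · omega
    · have h1 := pairs_five x U' (by omega) hs'
      have h2 := cov_ge_three x U' (by omega)
      omega
  | succ m ih =>
    intro U hU hsum
    rcases pairs_rec x U (by omega) hsum with h | ⟨U', hU', hs', hle⟩
    · omega
    · have h1 := ih U' (by omega) hs'
      have h2 := cov_ge_two x U' (by omega)
      omega

end pairs

/-- For `k = 2` the bound holds for all `n ≥ 6`. -/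
lemma admissible_six : Admissible 2 6 := by
  intro n hn x hx
  have hcard : #(univ : Finset (Fin n)) = n := by simp
  have : n - 1 ≤ #(pairs x (univ : Finset (Fin n))) := by
    rcases Nat.even_or_odd' n with ⟨m, hm | hm⟩
    · have := pairs_even x (m - 1) univ (by rw [hcard]; omega) hx
      omega
    · have := pairs_odd x (m - 3) univ (by rw [hcard]; omega) hx
      omega
  simpa [numSums, pairs] using this

/-- Counting nonnegative sums of integer vectors. -/
lemma numSums_int {n k : ℕ} (y : Fin n → ℤ) : numSums k (fun i => (y i : ℝ)) =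
    #{S ∈ powersetCard k (univ : Finset (Fin n)) | 0 ≤ ∑ i ∈ S, y i} := by
  unfold numSums
  congr 1
  apply filter_congr
  intro S _
  rw [← Int.cast_sum]
  exact_mod_cast Iff.rfl

/-- For `k = 2` the bound fails at `n = 5`. -/
lemma not_boundAt_five : ¬ BoundAt 2 5 := by
  intro h
  have h1 := h (fun i => ((![2, 2, 2, -3, -3] i : ℤ) : ℝ)) (by
    rw [← Int.cast_sum]
    have : ∑ i, (![2, 2, 2, -3, -3] : Fin 5 → ℤ) i = 0 := by decide
    rw [this]; simp)
  rw [numSums_int] at h1
  revert h1
  decide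

/-- For `k = 2` the least admissible number `f(2)` is `6`, and at `n = 7` the vector
`(3, 3, 3, 3, -4, -4, -4)` has exactly `6 = (7-1).choose (2-1)` nonnegative `2`-sums although
`x_1 + x_7 = -1 < 0`. So: there are `k ≥ 2`, `n ≥ f(k)` and `x` in `F_n` with exactly
`(n-1).choose (k-1)` nonnegative `k`-sums and `x_1 + x_{n-k+2} + ... + x_n < 0`. -/
theorem result : ∃ k n f : ℕ, 2 ≤ k ∧ IsLeast {N | Admissible k N} f ∧ f ≤ n + 1 ∧
    ∃ x : Fin (n + 1) → ℝ, Antitone x ∧ 0 ≤ ∑ i, x i ∧ numSums k x = n.choose (k - 1) ∧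
      extremeSum k x < 0 := by
  refine ⟨2, 6, 6, le_rfl, ⟨admissible_six, ?_⟩, by norm_num,
    fun i => ((![3, 3, 3, 3, -4, -4, -4] i : ℤ) : ℝ), ?_, ?_, ?_, ?_⟩
  · intro N hN
    by_contra hcon
    exact not_boundAt_five (hN 5 (by omega))
  · have : Antitone (![3, 3, 3, 3, -4, -4, -4] : Fin 7 → ℤ) := by
      intro i j
      revert i j
      decide
    intro i j hij
    exact Int.cast_le.mpr (this hij)
  · rw [← Int.cast_sum]
    have : ∑ i, (![3, 3, 3, 3, -4, -4, -4] : Fin 7 → ℤ) i = 0 := by decide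
    rw [this]; simp
  · rw [numSums_int]
    decide
  · unfold extremeSum
    rw [← Int.cast_sum, ← Int.cast_add]
    have : (![3, 3, 3, 3, -4, -4, -4] : Fin 7 → ℤ) 0 +
        ∑ i ∈ univ.filter (fun i : Fin 7 => 6 + 2 ≤ (i : ℕ) + 2),
          (![3, 3, 3, 3, -4, -4, -4] : Fin 7 → ℤ) i = -1 := by decide
    rw [this]
    norm_num

end Pool.Agent.Results.MP_b5758b_co.FailsAtSeven
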