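import Pool.Agent.Lib.Helper9.KSumsProof

/-!
# Uniqueness of extremal vectors for nonnegative k-sums whenever the bound holds at `n - k`
-/

set_option autoImplicit false

namespace Pool.Agent.Results.MP_b5758b_co.ShiftByK

open Finset Pool.Agent.Lib.Helper9.KSums

/-- The bound fails at `n = k + 1`. -/
lemma not_boundAt_succ (k : ℕ) (hk : 2 ≤ k) : ¬ BoundAt k (k + 1) := by
  intro h
  have h1 := h (fun i => if i = Fin.last k then -(k : ℝ) else 1) (by
    rw [Fin.sum_univ_castSucc]
    simp [Fin.castSucc_ne_last])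
  have h2 : numSums k (fun i : Fin (k + 1) => if i = Fin.last k then -(k : ℝ) else 1) ≤ 1 := by
    unfold numSums
    rw [card_le_one]
    have key : ∀ S ∈ ({S ∈ powersetCard k (univ : Finset (Fin (k + 1))) |
        0 ≤ ∑ i ∈ S, (if i = Fin.last k then -(k : ℝ) else 1)}),
        S = univ.erase (Fin.last k) := by
      intro S hS
      rw [mem_filter, mem_powersetCard] at hS
      obtain ⟨⟨-, hc⟩, hs⟩ := hS
      have hnot : Fin.last k ∉ S := by
        intro hmem
        rw [← add_sum_erase S _ hmem, if_pos rfl] at hs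
        have h3 : ∑ i ∈ S.erase (Fin.last k), (if i = Fin.last k then -(k : ℝ) else 1) =
            (k : ℝ) - 1 := by
          rw [sum_congr rfl (g := fun _ => (1 : ℝ)) (fun i hi => if_neg (ne_of_mem_erase hi))]
          rw [sum_const, card_erase_of_mem hmem, hc, nsmul_eq_mul, mul_one]
          push_cast [Nat.cast_sub (by omega : 1 ≤ k)]
          ring
        rw [h3] at hs
        linarith
      apply eq_of_subset_of_card_le
      · intro i hi
        rw [mem_erase]
        exact ⟨fun h => hnot (h ▸ hi), mem_univ _⟩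
      · rw [card_erase_of_mem (mem_univ _), card_univ, Fintype.card_fin, hc]
        omega
    intro S hS T hT
    rw [key S hS, key T hT]
  have h3 : (k + 1 - 1).choose (k - 1) = k := by
    obtain ⟨j, rfl⟩ : ∃ j, k = j + 1 := ⟨k - 1, by omega⟩
    simp [Nat.choose_succ_self_right]
  rw [h3] at h1
  omega

/-- Let `k ≥ 2` and let `n` satisfy one of: (i) `n > 2k` and the bound holds at `n - k`;
(ii) `n ≥ N + k` for some `N` such that the bound holds for all `n' ≥ N` (that is,
`n ≥ f(k) + k`); (iii) `k` divides `n` and `n ≥ 3k`. Then every `x` in `F_n` with exactly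
`(n-1).choose (k-1)` nonnegative `k`-sums satisfies `x_1 + x_{n-k+2} + ... + x_n ≥ 0`, and its
nonnegative `k`-sums are exactly those of the `k`-sets containing the first index. -/
theorem result (k n : ℕ) (hk : 2 ≤ k)
    (hn : (2 * k < n + 1 ∧ BoundAt k (n + 1 - k)) ∨
      (∃ N, Admissible k N ∧ N + k ≤ n + 1) ∨ (k ∣ n + 1 ∧ 3 * k ≤ n + 1))
    (x : Fin (n + 1) → ℝ) (hx : Antitone x) (hsum : 0 ≤ ∑ i, x i)
    (heq : numSums k x = n.choose (k - 1)) :
    0 ≤ extremeSum k x ∧
      ∀ S : Finset (Fin (n + 1)), #S = k → (0 ≤ ∑ i ∈ S, x i ↔ (0 : Fin (n + 1)) ∈ S) := by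
  have key : 2 * k < n + 1 ∧ BoundAt k (n + 1 - k) := by
    rcases hn with h | ⟨N, hN, hNn⟩ | ⟨⟨c, hc⟩, hge⟩
    · exact h
    · have hNk : k + 2 ≤ N := by
        by_contra hcon
        exact not_boundAt_succ k hk (hN (k + 1) (by omega))
      exact ⟨by omega, hN _ (by omega)⟩
    · have hc3 : 3 ≤ c := by
        by_contra hcon
        have : c ≤ 2 := by omega
        have : k * c ≤ k * 2 := Nat.mul_le_mul_left _ this
        omega
      refine ⟨by omega, ?_⟩
      have : n + 1 - k = k * ((c - 2) + 1) := by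
        obtain ⟨d, rfl⟩ : ∃ d, c = d + 3 := ⟨c - 3, by omega⟩
        have e : d + 3 - 2 + 1 = d + 2 := by omega
        rw [hc, e]
        have : k * (d + 3) = k * (d + 2) + k := by ring
        omega
      rw [this]
      exact boundAt_mul (by omega) _
  exact uniqueness (by omega) key.1 key.2 x hx hsum heq

end Pool.Agent.Results.MP_b5758b_co.ShiftByK
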